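import Pool.Agent.Helper743.KTFin

set_option autoImplicit false

/-! Problem MP_95c08c_lc, question Q1: a K-trivial set which is not computable from some
almost complete set below the halting problem. -/

namespace Pool.Agent.Results.MP_95c08c_lc.NotBelow

open Pool.Agent.Helper743 Pool.Agent.Helper743.KT Nat.Partrec

/-- `A` is Turing reducible to `B`, for sets given by their characteristic functions. -/
def Below (A B : ℕ → Bool) : Prop :=
  TuringReducible (fun n => Part.some (A n).toNat : ℕ →. ℕ)
    (fun n => Part.some (B n).toNat : ℕ →. ℕ)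

/-- `f` is upper semicomputable relative to the set `B`: the set of the pairs `(n, k)` with
`f n ≤ k` is the domain of a function that is partial computable relative to `B`. -/
def UpperSemi (B : ℕ → Bool) (f : ℕ → ℕ) : Prop :=
  ∃ φ : ℕ →. ℕ, TuringReducible φ (fun n => Part.some (B n).toNat : ℕ →. ℕ) ∧
    ∀ n k : ℕ, (φ (Nat.pair n k)).Dom ↔ f n ≤ k

/-- All finite sums of the numbers `2 ^ (- f n)` are at most `1`. -/
def KraftSum (f : ℕ → ℕ) : Prop := ∀ s : Finset ℕ, ∑ n ∈ s, (1 / 2 : ℝ) ^ f n ≤ 1

/-- `κ` is (a version of) prefix-free Kolmogorov complexity relative to `B`, on natural numbers: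
the least function up to an additive constant among the functions which are upper semicomputable
relative to `B` and satisfy the Kraft inequality. -/
def IsComplexity (B : ℕ → Bool) (κ : ℕ → ℕ) : Prop :=
  UpperSemi B κ ∧ KraftSum κ ∧
    ∀ f : ℕ → ℕ, UpperSemi B f → KraftSum f → ∃ c : ℕ, ∀ n, κ n ≤ f n + c

/-- `X` is K-trivial relative to `B`: the complexity relative to `B` of the string of the first
`n` bits of `X` exceeds the complexity relative to `B` of `n` by at most a constant. Strings
are coded by natural numbers in the standard way. -/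
def KTrivialRel (X B : ℕ → Bool) : Prop :=
  ∃ κ : ℕ → ℕ, IsComplexity B κ ∧
    ∃ c : ℕ, ∀ n : ℕ, κ (Encodable.encode (List.ofFn (fun i : Fin n => X i))) ≤ κ n + c

/-- The halting problem. -/
noncomputable def haltingSet (n : ℕ) : Bool :=
  open Classical in decide (Code.eval (Denumerable.ofNat Code n) n).Dom

/-- There are a K-trivial set `A` (K-trivial relative to the empty set) and an almost complete
set `B` computable from the halting problem such that `A` is not computable from `B`. -/
theorem result : ∃ A B : ℕ → Bool, KTrivialRel A (fun _ => false) ∧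
    Below B haltingSet ∧ KTrivialRel haltingSet B ∧ ¬ Below A B := by
  classical
  have hUp : ∀ (B : ℕ → Bool) (f : ℕ → ℕ), UpperSemi B f ↔ UpS (fun n => (B n).toNat) f := by
    intro B f
    constructor
    · rintro ⟨φ, h1, h2⟩
      exact ⟨φ, RecursiveIn.iff_nat.1 h1, h2⟩
    · rintro ⟨φ, h1, h2⟩
      exact ⟨φ, RecursiveIn.iff_nat.2 h1, h2⟩
  have hOpt : ∀ (B : ℕ → Bool) (κ : ℕ → ℕ), Opt (fun n => (B n).toNat) κ → IsComplexity B κ := by
    intro B κ h
    refine ⟨(hUp B κ).2 h.1, h.2.1, fun f hf hk => h.2.2 f ((hUp B f).1 hf) hk⟩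
  -- the K-trivial set
  obtain ⟨c, hc⟩ := re_code inA_re
  set a := Encodable.encode c with ha
  have hWA : AC.WA a = fun n => (decide (inA n) : Bool).toNat := by
    funext n
    unfold AC.WA K
    rw [Nat.unpair_pair, ha, Denumerable.ofNat_encode]
    by_cases h : inA n
    · rw [if_pos ((hc n).1 h), decide_eq_true h]; rfl
    · rw [if_neg (fun h1 => h ((hc n).2 h1)), decide_eq_false h]; rfl
  have hchi : AC.WA a = chiA := by
    rw [hWA]
    funext n
    unfold chiA chi
    by_cases h : inA n
    · rw [if_pos h, decide_eq_true h]; rfl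
    · rw [if_neg h, decide_eq_false h]; rfl
  have hnc : ¬ Computable (AC.WA a) := by rw [hchi]; exact not_computable
  have hK0 : (fun n => (haltingSet n).toNat) = K0 := by
    funext n
    unfold haltingSet K0
    by_cases h : (Code.eval (Denumerable.ofNat Code n) n).Dom <;> simp [h]
  refine ⟨fun n => decide (inA n), gr (AC.GG a), ?_, ?_, ?_, ?_⟩
  · refine ⟨KG (fun m => m), hOpt _ _ ?_, ?_⟩
    · exact Opt_of_TR (TR_of_computable Computable.id)
        (TR_of_computable (Computable.const 0)) (Opt_KG (fun m => m))
    · obtain ⟨d, hd⟩ := inA_triv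
      refine ⟨d, fun n => ?_⟩
      have h1 : XA n = List.ofFn (fun i : Fin n => decide (inA i)) := by
        unfold XA
        apply List.ext_getElem
        · simp
        · intro i hi1 hi2
          simp
      have h2 := hd n
      rw [h1] at h2
      exact h2
  · have h1 : TR (fun n => (gr (AC.GG a) n).toNat) (fun n => (haltingSet n).toNat) := by
      rw [hK0]
      exact TR.trans (gr_TR _) (TR.trans (AC.limC_GG a).TR_K K_TR_K0)
    exact TR_iff.1 h1
  · refine ⟨KG (AC.GG a), hOpt _ _ (Opt_of_TR (TR_gr _) (gr_TR _) (Opt_KG _)), ?_⟩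
    obtain ⟨d, hd⟩ := halting_triv a
    refine ⟨d, fun n => ?_⟩
    have h2 := hd n
    rw [kstr_eq] at h2
    exact h2
  · intro h
    have h1 : TR (fun n => (decide (inA n) : Bool).toNat) (fun n => (gr (AC.GG a) n).toNat) :=
      TR_iff.2 h
    apply AC.avoids a hnc
    rw [hWA]
    exact TR.trans h1 (gr_TR _)

end Pool.Agent.Results.MP_95c08c_lc.NotBelow
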